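import Mathlib

/-!
# Path-independent stabilizability without a uniform exponential rate (MP_3f52e1_an, Q1)

We give finite sets `𝒜` (three `5 × 10` matrices) and `ℬ` (two `10 × 5` matrices) for which the
products `A_n B_n ⋯ A_1 B_1` are path-independent stabilizable, although for every sequence `B` in
`ℬ` and every `n` some choice of `A` gives a product `A_n B_n ⋯ A_1 B_1` of norm at least `1`.
-/

namespace Pool.Agent.Results.MP_3f52e1_an.NoUniformRate

open Filter Topology Matrix

/-- The products `A_n B_n ⋯ A_1 B_1` (the sequences are indexed from `0` here, so that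
`prodSeq A B n = A (n-1) * B (n-1) * ⋯ * A 0 * B 0`). -/
def prodSeq {N M : ℕ} (A : ℕ → Matrix (Fin N) (Fin M) ℝ) (B : ℕ → Matrix (Fin M) (Fin N) ℝ) :
    ℕ → Matrix (Fin N) (Fin N) ℝ
  | 0 => 1
  | n + 1 => A n * B n * prodSeq A B n

/-- The norm: the sum of the absolute values of the entries. -/
def matNorm {N : ℕ} (X : Matrix (Fin N) (Fin N) ℝ) : ℝ := ∑ i, ∑ j, |X i j|

/-- Path-independent stabilizability. -/
def PathIndependentStabilizable {N M : ℕ} (𝒜 : Finset (Matrix (Fin N) (Fin M) ℝ))
    (ℬ : Finset (Matrix (Fin M) (Fin N) ℝ)) : Prop :=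
  ∃ B : ℕ → Matrix (Fin M) (Fin N) ℝ, (∀ n, B n ∈ ℬ) ∧
    ∀ A : ℕ → Matrix (Fin N) (Fin M) ℝ, (∀ n, A n ∈ 𝒜) →
      Tendsto (fun n => matNorm (prodSeq A B n)) atTop (𝓝 0)

/-- Some sequence in `ℬ` gives a uniform exponential rate for all sequences in `𝒜`. -/
def HasUniformExponentialRate {N M : ℕ} (𝒜 : Finset (Matrix (Fin N) (Fin M) ℝ))
    (ℬ : Finset (Matrix (Fin M) (Fin N) ℝ)) : Prop :=
  ∃ B : ℕ → Matrix (Fin M) (Fin N) ℝ, (∀ n, B n ∈ ℬ) ∧ ∃ C > (0 : ℝ), ∃ r : ℝ, 0 < r ∧ r < 1 ∧
    ∀ A : ℕ → Matrix (Fin N) (Fin M) ℝ, (∀ n, A n ∈ 𝒜) →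
      ∀ n ≥ 1, matNorm (prodSeq A B n) ≤ C * r ^ n

/-! ## The matrices -/

/-- the matrix of the letter `0` -/
noncomputable def M0 : Matrix (Fin 5) (Fin 5) ℝ :=
  !![1, 0, 0, 0, 0; 0, 2, 0, 0, 0; 0, 0, 1, 0, 0; 0, 0, 0, 1, 0; 0, 0, 0, 0, 2]

/-- the matrices of the letter `1` -/
noncomputable def O1 (o : Fin 3) : Matrix (Fin 5) (Fin 5) ℝ :=
  match o with
  | 0 => !![1 / 2, 0, 0, -2, 1; 0, 0, 0, 0, 0; 0, 0, 0, 0, 0; 0, 0, 0, 0, 0; 0, 0, 0, 0, 0]
  | 1 => !![0, 0, 0, 0, 0; 1 / 2, 0, 0, -2, 1; 1 / 2, 0, 0, -2, 1; 0, 0, 0, 0, 0; 0, 0, 0, 0, 0]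
  | 2 => !![0, 0, 0, 0, 0; 0, 0, 0, 0, 0; 0, 0, 0, 0, 0; 0, 1, 0, 0, 0; 0, 0, 1, 0, 0]

/-- the step matrices -/
noncomputable def stepM (b : Bool) (o : Fin 3) : Matrix (Fin 5) (Fin 5) ℝ := if b then O1 o else M0

/-- the action of the step matrices -/
noncomputable def stepV (b : Bool) (o : Fin 3) (v : Fin 5 → ℝ) : Fin 5 → ℝ :=
  if b then
    match o with
    | 0 => ![v 0 / 2 + v 4 - 2 * v 3, 0, 0, 0, 0]
    | 1 => ![0, v 0 / 2 + v 4 - 2 * v 3, v 0 / 2 + v 4 - 2 * v 3, 0, 0]
    | 2 => ![0, 0, 0, v 1, v 2]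
  else ![v 0, 2 * v 1, v 2, v 3, 2 * v 4]

theorem stepM_mulVec (b : Bool) (o : Fin 3) (v : Fin 5 → ℝ) :
    stepM b o *ᵥ v = stepV b o v := by
  cases b
  · ext i
    fin_cases i <;> simp [stepM, stepV, M0, Matrix.mulVec, dotProduct, Fin.sum_univ_succ]
  · fin_cases o <;> ext i <;> fin_cases i <;>
      simp [stepM, stepV, O1, Matrix.mulVec, dotProduct, Fin.sum_univ_succ] <;> ring

/-- trajectory -/
noncomputable def run (β : ℕ → Bool) (o : ℕ → Fin 3) (x : Fin 5 → ℝ) : ℕ → Fin 5 → ℝ
  | 0 => x
  | n + 1 => stepV (β n) (o n) (run β o x n)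

theorem run_add (β : ℕ → Bool) (o : ℕ → Fin 3) (x : Fin 5 → ℝ) (s t : ℕ) :
    run β o x (s + t) = run (fun i => β (s + i)) (fun i => o (s + i)) (run β o x s) t := by
  induction t with
  | zero => rfl
  | succ t ih =>
    change stepV (β (s + t)) (o (s + t)) (run β o x (s + t)) = _
    rw [ih]
    rfl

theorem stepV_smul (b : Bool) (o : Fin 3) (c : ℝ) (v : Fin 5 → ℝ) :
    stepV b o (c • v) = c • stepV b o v := by
  rw [← stepM_mulVec, ← stepM_mulVec, Matrix.mulVec_smul]

theorem run_smul (β : ℕ → Bool) (o : ℕ → Fin 3) (c : ℝ) (x : Fin 5 → ℝ) (n : ℕ) :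
    run β o (c • x) n = c • run β o x n := by
  induction n with
  | zero => rfl
  | succ n ih =>
    change stepV (β n) (o n) (run β o (c • x) n) = _
    rw [ih, stepV_smul]
    rfl

theorem run_zeros (β : ℕ → Bool) (o : ℕ → Fin 3) (x : Fin 5 → ℝ) (k : ℕ)
    (h : ∀ i < k, β i = false) :
    run β o x k = ![x 0, 2 ^ k * x 1, x 2, x 3, 2 ^ k * x 4] := by
  induction k with
  | zero =>
    ext i
    fin_cases i <;> simp [run]
  | succ k ih =>
    change stepV (β k) (o k) (run β o x k) = _
    rw [ih (fun i hi => h i (by omega)), h k (by omega)]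
    ext i
    fin_cases i <;> simp [stepV] <;> ring

theorem run_congr (β β' : ℕ → Bool) (o o' : ℕ → Fin 3) (x : Fin 5 → ℝ) (n : ℕ)
    (hβ : ∀ i < n, β i = β' i) (ho : ∀ i < n, o i = o' i) : run β o x n = run β' o' x n := by
  induction n with
  | zero => rfl
  | succ n ih =>
    change stepV (β n) (o n) (run β o x n) = stepV (β' n) (o' n) (run β' o' x n)
    rw [ih (fun i hi => hβ i (by omega)) (fun i hi => ho i (by omega)), hβ n (by omega),
      ho n (by omega)]

/-- the idle state -/
def eZ : Fin 5 → ℝ := ![1, 0, 0, 0, 0]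

/-- the start of a check -/
def eX : Fin 5 → ℝ := ![0, 1, 1, 0, 0]

/-- number of leading zeros, as a predicate -/
def Lead (β : ℕ → Bool) (n k : ℕ) : Prop :=
  k ≤ n ∧ (∀ i < k, β i = false) ∧ (k < n → β k = true)

theorem exists_lead (β : ℕ → Bool) (n : ℕ) : ∃ k, Lead β n k := by
  by_cases h : ∃ i, i < n ∧ β i = true
  · classical
    refine ⟨Nat.find h, (Nat.find_spec h).1.le, fun i hi => ?_, fun _ => (Nat.find_spec h).2⟩
    have h1 := Nat.find_min h hi
    by_contra h2
    apply h1
    refine ⟨hi.trans (Nat.find_spec h).1, ?_⟩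
    simpa using h2
  · push Not at h
    exact ⟨n, le_rfl, fun i hi => by simpa using h i hi, fun h => absurd h (lt_irrefl _)⟩

theorem two_pow_sub {i k : ℕ} (h : i ≠ k + 1) : (2 : ℝ) ^ k ≤ |(2 : ℝ) ^ i - 2 * 2 ^ k| := by
  have h2 : (2 : ℝ) * 2 ^ k = 2 ^ (k + 1) := by rw [pow_succ]; ring
  rcases lt_or_gt_of_ne h with h1 | h1
  · have h3 : (2 : ℝ) ^ i ≤ 2 ^ k := pow_le_pow_right₀ (by norm_num) (by omega)
    rw [abs_sub_comm]
    apply le_abs.mpr
    left
    linarith
  · have h3 : (2 : ℝ) ^ (k + 2) ≤ 2 ^ i := pow_le_pow_right₀ (by norm_num) (by omega)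
    apply le_abs.mpr
    left
    have h4 : (2 : ℝ) ^ (k + 2) = 4 * 2 ^ k := by rw [pow_add]; ring
    have h5 : (0 : ℝ) < 2 ^ k := by positivity
    linarith

/-- The lower bound. -/
theorem lower_bound : ∀ (n : ℕ) (β : ℕ → Bool) (k : ℕ), Lead β n k →
    ∃ o : ℕ → Fin 3, (∃ i, (2 : ℝ) ^ k ≤ |run β o eZ n i|) ∨ (∃ i, (2 : ℝ) ^ k ≤ |run β o eX n i|) := by
  intro n
  induction n using Nat.strong_induction_on with
  | _ n IH =>
    intro β k hk
    obtain ⟨hkn, hz, hone⟩ := hk
    rcases hkn.eq_or_lt with rfl | hlt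
    · -- no letter `1`
      refine ⟨fun _ => 0, Or.inr ⟨1, ?_⟩⟩
      rw [run_zeros _ _ _ _ hz]
      simp [eX]
    · have hβk : β k = true := hone hlt
      obtain ⟨i, hi⟩ := exists_lead (fun s => β (k + 1 + s)) (n - (k + 1))
      have hi' := hi
      obtain ⟨hin, hiz, hione⟩ := hi
      by_cases hik : i = k + 1
      · -- idle
        obtain ⟨o', ho'⟩ := IH (n - (k + 1)) (by omega) _ i hi'
        have hn : n = k + 1 + (n - (k + 1)) := by omega
        rcases ho' with ⟨c, hc⟩ | ⟨c, hc⟩
        · refine ⟨fun s => if s ≤ k then 0 else o' (s - (k + 1)), Or.inl ⟨c, ?_⟩⟩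
          rw [hn, run_add]
          have h1 : run β (fun s => if s ≤ k then 0 else o' (s - (k + 1))) eZ (k + 1) =
              (1 / 2 : ℝ) • eZ := by
            change stepV (β k) _ (run β _ eZ k) = _
            rw [run_zeros _ _ _ _ hz, hβk]
            ext j
            fin_cases j <;> simp [stepV, eZ]
          rw [h1, run_smul, run_congr _ (fun s => β (k + 1 + s)) _ o' eZ _ (fun _ _ => rfl)
            (fun s _ => by
              rw [if_neg (by omega)]
              congr 1
              omega)]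
          rw [Pi.smul_apply, smul_eq_mul, abs_mul, hik, pow_succ] at *
          rw [abs_of_pos (by norm_num : (0 : ℝ) < 1 / 2)]
          linarith
        · refine ⟨fun s => if s ≤ k then 1 else o' (s - (k + 1)), Or.inl ⟨c, ?_⟩⟩
          rw [hn, run_add]
          have h1 : run β (fun s => if s ≤ k then 1 else o' (s - (k + 1))) eZ (k + 1) =
              (1 / 2 : ℝ) • eX := by
            change stepV (β k) _ (run β _ eZ k) = _
            rw [run_zeros _ _ _ _ hz, hβk]
            ext j
            fin_cases j <;> simp [stepV, eZ, eX]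
          rw [h1, run_smul, run_congr _ (fun s => β (k + 1 + s)) _ o' eX _ (fun _ _ => rfl)
            (fun s _ => by
              rw [if_neg (by omega)]
              congr 1
              omega)]
          rw [Pi.smul_apply, smul_eq_mul, abs_mul, hik, pow_succ] at *
          rw [abs_of_pos (by norm_num : (0 : ℝ) < 1 / 2)]
          linarith
      · rcases hin.eq_or_lt with hin' | hlt'
        · -- no further letter `1`
          refine ⟨fun _ => 2, Or.inr ⟨3, ?_⟩⟩
          have hn : n = k + 1 + i := by omega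
          rw [hn, run_add, run_zeros _ _ _ _ hiz]
          have h1 : run β (fun _ => 2) eX (k + 1) = ![0, 0, 0, 2 ^ k, 1] := by
            change stepV (β k) _ (run β _ eX k) = _
            rw [run_zeros _ _ _ _ hz, hβk]
            ext j
            fin_cases j <;> simp [stepV, eX]
          rw [h1]
          simp
        · -- a defect
          have hβi : β (k + 1 + i) = true := hione hlt'
          obtain ⟨m, hm⟩ := exists_lead (fun s => β (k + 1 + i + 1 + s)) (n - (k + 1 + i + 1))
          obtain ⟨o', ho'⟩ := IH (n - (k + 1 + i + 1)) (by omega) _ m hm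
          have hn : n = k + 1 + i + 1 + (n - (k + 1 + i + 1)) := by omega
          have hm1 : (1 : ℝ) ≤ 2 ^ m := one_le_pow₀ (by norm_num)
          have hgain := two_pow_sub hik
          -- the state before the finishing step
          have hmid : ∀ o : ℕ → Fin 3, o k = 2 →
              run β o eX (k + 1 + i) = ![0, 0, 0, 2 ^ k, 2 ^ i] := by
            intro o hok
            rw [run_add, run_zeros _ _ _ _ hiz]
            have h1 : run β o eX (k + 1) = ![0, 0, 0, 2 ^ k, 1] := by
              change stepV (β k) (o k) (run β _ eX k) = _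
              rw [run_zeros _ _ _ _ hz, hβk, hok]
              ext j
              fin_cases j <;> simp [stepV, eX]
            rw [h1]
            ext j
            fin_cases j <;> simp
          rcases ho' with ⟨c, hc⟩ | ⟨c, hc⟩
          · refine ⟨fun s => if s = k then 2 else if s ≤ k + 1 + i then 0
              else o' (s - (k + 1 + i + 1)), Or.inr ⟨c, ?_⟩⟩
            rw [hn, run_add]
            have h1 : run β (fun s => if s = k then 2 else if s ≤ k + 1 + i then 0
                else o' (s - (k + 1 + i + 1))) eX (k + 1 + i + 1) =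
                ((2 : ℝ) ^ i - 2 * 2 ^ k) • eZ := by
              change stepV (β (k + 1 + i)) _ (run β _ eX (k + 1 + i)) = _
              rw [hmid _ (by simp), hβi]
              have h2 : ¬ (k + 1 + i = k) := by omega
              simp only [h2, if_false, le_refl, if_true]
              ext j
              fin_cases j <;> simp [stepV, eZ]
            rw [h1, run_smul, run_congr _ (fun s => β (k + 1 + i + 1 + s)) _ o' eZ _
              (fun _ _ => rfl) (fun s _ => by
                rw [if_neg (by omega), if_neg (by omega)]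
                congr 1
                omega)]
            rw [Pi.smul_apply, smul_eq_mul, abs_mul]
            calc (2 : ℝ) ^ k ≤ |(2 : ℝ) ^ i - 2 * 2 ^ k| * 1 := by rw [mul_one]; exact hgain
              _ ≤ _ := by
                gcongr
                exact hm1.trans hc
          · refine ⟨fun s => if s = k then 2 else if s ≤ k + 1 + i then 1
              else o' (s - (k + 1 + i + 1)), Or.inr ⟨c, ?_⟩⟩
            rw [hn, run_add]
            have h1 : run β (fun s => if s = k then 2 else if s ≤ k + 1 + i then 1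
                else o' (s - (k + 1 + i + 1))) eX (k + 1 + i + 1) =
                ((2 : ℝ) ^ i - 2 * 2 ^ k) • eX := by
              change stepV (β (k + 1 + i)) _ (run β _ eX (k + 1 + i)) = _
              rw [hmid _ (by simp), hβi]
              have h2 : ¬ (k + 1 + i = k) := by omega
              simp only [h2, if_false, le_refl, if_true]
              ext j
              fin_cases j <;> simp [stepV, eX]
            rw [h1, run_smul, run_congr _ (fun s => β (k + 1 + i + 1 + s)) _ o' eX _
              (fun _ _ => rfl) (fun s _ => by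
                rw [if_neg (by omega), if_neg (by omega)]
                congr 1
                omega)]
            rw [Pi.smul_apply, smul_eq_mul, abs_mul]
            calc (2 : ℝ) ^ k ≤ |(2 : ℝ) ^ i - 2 * 2 ^ k| * 1 := by rw [mul_one]; exact hgain
              _ ≤ _ := by
                gcongr
                exact hm1.trans hc

/-! ## The stabilizing sequence: blocks `0 ^ j 1`, `j = 0, 1, 2, …` -/

/-- `(clock n).2` is the number of the current block, `(clock n).1` the number of letters `0` that
remain in it -/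
def clock : ℕ → ℕ × ℕ
  | 0 => (0, 0)
  | n + 1 => if (clock n).1 = 0 then ((clock n).2 + 1, (clock n).2 + 1)
      else ((clock n).1 - 1, (clock n).2)

/-- the stabilizing word -/
def word (n : ℕ) : Bool := decide ((clock n).1 = 0)

theorem clock_le (n : ℕ) : (clock n).1 ≤ (clock n).2 := by
  induction n with
  | zero => simp [clock]
  | succ n ih =>
    simp only [clock]
    split_ifs
    · simp
    · simp only
      omega

theorem clock_succ_zero {n : ℕ} (h : (clock n).1 = 0) :
    clock (n + 1) = ((clock n).2 + 1, (clock n).2 + 1) := by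
  simp [clock, h]

theorem clock_succ_pos {n : ℕ} (h : (clock n).1 ≠ 0) :
    clock (n + 1) = ((clock n).1 - 1, (clock n).2) := by
  simp [clock, h]

theorem clock_mono : Monotone fun n => (clock n).2 := by
  apply monotone_nat_of_le_succ
  intro n
  by_cases h : (clock n).1 = 0
  · rw [clock_succ_zero h]; simp
  · rw [clock_succ_pos h]

theorem clock_next : ∀ (r n : ℕ), (clock n).1 = r → (clock (n + r + 1)).2 = (clock n).2 + 1
  | 0, n, h => by rw [add_zero, clock_succ_zero h]
  | (r + 1), n, h => by
    have h1 : (clock n).1 ≠ 0 := by omega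
    have h2 := clock_succ_pos h1
    have h3 : (clock (n + 1)).1 = r := by rw [h2]; simp only; omega
    have h4 := clock_next r (n + 1) h3
    rw [h2] at h4
    simp only at h4
    rw [← h4]
    congr 2
    omega

theorem clock_tendsto : Tendsto (fun n => (clock n).2) atTop atTop := by
  apply tendsto_atTop_atTop_of_monotone clock_mono
  intro b
  induction b with
  | zero => exact ⟨0, Nat.zero_le _⟩
  | succ b ih =>
    obtain ⟨n, hn⟩ := ih
    refine ⟨n + (clock n).1 + 1, ?_⟩
    rw [clock_next _ n rfl]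
    omega

section path

variable (o : ℕ → Fin 3) (x : Fin 5 → ℝ)

theorem run_succ (β : ℕ → Bool) (n : ℕ) :
    run β o x (n + 1) = stepV (β n) (o n) (run β o x n) := rfl

theorem step_zero (n : ℕ) (h : (clock n).1 ≠ 0) (v : Fin 5 → ℝ) :
    stepV (word n) (o n) v = ![v 0, 2 * v 1, v 2, v 3, 2 * v 4] := by
  simp [stepV, word, h]

theorem step_one (n : ℕ) (h : (clock n).1 = 0) (v : Fin 5 → ℝ) :
    stepV (word n) (o n) v = ![v 0 / 2 + v 4 - 2 * v 3, 0, 0, 0, 0] ∨
    stepV (word n) (o n) v = ![0, v 0 / 2 + v 4 - 2 * v 3, v 0 / 2 + v 4 - 2 * v 3, 0, 0] ∨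
    stepV (word n) (o n) v = ![0, 0, 0, v 1, v 2] := by
  have hw : word n = true := by simp [word, h]
  rw [hw]
  generalize o n = c
  fin_cases c
  · left; simp [stepV]
  · right; left; simp [stepV]
  · right; right; simp [stepV]

/-- eventually zero -/
def EvZero : Prop := ∃ n0, ∀ n ≥ n0, run word o x n = 0

theorem evZero_of {n : ℕ} (h : run word o x n = 0) : EvZero o x := by
  refine ⟨n, fun m hm => ?_⟩
  obtain ⟨k, rfl⟩ := Nat.exists_eq_add_of_le hm
  induction k with
  | zero => exact h
  | succ k ih =>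
    rw [← add_assoc, run_succ, ih (by omega)]
    have := stepV_smul (word (n + k)) (o (n + k)) 0 0
    simpa using this

/-- second phase of a check -/
theorem evZero_Y : ∀ (r n : ℕ), (clock n).1 = r → ∀ u : ℝ, 1 ≤ (clock n).2 →
    run word o x n = ![0, 0, 0, 2 ^ ((clock n).2 - 1) * u, 2 ^ ((clock n).2 - r) * u] → EvZero o x
  | 0, n, h, u, hj, hv => by
    apply evZero_of o x (n := n + 1)
    rw [run_succ]
    have key : (2 : ℝ) ^ ((clock n).2 - 0) * u = 2 * (2 ^ ((clock n).2 - 1) * u) := by
      obtain ⟨j, hj'⟩ := Nat.exists_eq_add_of_le hj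
      rw [hj', Nat.sub_zero, Nat.add_sub_cancel_left, pow_add]
      ring
    rcases step_one o n h (run word o x n) with h1 | h1 | h1 <;> rw [h1, hv]
    · rw [key]
      ext i
      fin_cases i <;> simp
    · rw [key]
      ext i
      fin_cases i <;> simp
    · ext i
      fin_cases i <;> simp
  | (r + 1), n, h, u, hj, hv => by
    have h1 : (clock n).1 ≠ 0 := by omega
    have h2 := clock_succ_pos h1
    have hle := clock_le n
    refine evZero_Y r (n + 1) (by rw [h2]; simp only; omega) u (by rw [h2]; exact hj) ?_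
    rw [run_succ, step_zero o n h1, hv, h2]
    have h3 : (clock n).2 - r = (clock n).2 - (r + 1) + 1 := by omega
    ext i
    fin_cases i <;> simp [h3, pow_succ]
    ring

/-- first phase of a check -/
theorem evZero_X : ∀ (r n : ℕ), (clock n).1 = r → ∀ u : ℝ,
    run word o x n = ![0, 2 ^ ((clock n).2 - r) * u, u, 0, 0] → EvZero o x
  | 0, n, h, u, hv => by
    have h2 := clock_succ_zero h
    rcases step_one o n h (run word o x n) with h1 | h1 | h1
    · apply evZero_of o x (n := n + 1)
      rw [run_succ, h1, hv]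
      ext i
      fin_cases i <;> simp
    · apply evZero_of o x (n := n + 1)
      rw [run_succ, h1, hv]
      ext i
      fin_cases i <;> simp
    · refine evZero_Y o x ((clock n).2 + 1) (n + 1) (by rw [h2]) u (by rw [h2]; simp) ?_
      rw [run_succ, h1, hv, h2]
      ext i
      fin_cases i <;> simp
  | (r + 1), n, h, u, hv => by
    have h1 : (clock n).1 ≠ 0 := by omega
    have h2 := clock_succ_pos h1
    have hle := clock_le n
    refine evZero_X r (n + 1) (by rw [h2]; simp only; omega) u ?_
    rw [run_succ, step_zero o n h1, hv, h2]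
    have h3 : (clock n).2 - r = (clock n).2 - (r + 1) + 1 := by omega
    ext i
    fin_cases i <;> simp [h3, pow_succ]
    ring

/-- the idle state is kept or left for good -/
theorem idle_step (n : ℕ) (K : ℝ) (hv : run word o x n = ![K / 2 ^ (clock n).2, 0, 0, 0, 0]) :
    run word o x (n + 1) = ![K / 2 ^ (clock (n + 1)).2, 0, 0, 0, 0] ∨ EvZero o x := by
  by_cases h : (clock n).1 = 0
  · have h2 := clock_succ_zero h
    rcases step_one o n h (run word o x n) with h1 | h1 | h1
    · left
      rw [run_succ, h1, hv, h2]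
      ext i
      fin_cases i <;> simp [pow_succ]
      rw [div_div]
    · right
      refine evZero_X o x ((clock n).2 + 1) (n + 1) (by rw [h2]) (K / 2 ^ (clock n).2 / 2) ?_
      rw [run_succ, h1, hv, h2]
      ext i
      fin_cases i <;> simp
    · right
      apply evZero_of o x (n := n + 1)
      rw [run_succ, h1, hv]
      ext i
      fin_cases i <;> simp
  · left
    have h2 := clock_succ_pos h
    rw [run_succ, step_zero o n h, hv, h2]
    ext i
    fin_cases i <;> simp

theorem idle_all (n : ℕ) (K : ℝ) (hv : run word o x n = ![K / 2 ^ (clock n).2, 0, 0, 0, 0]) :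
    (∀ m ≥ n, run word o x m = ![K / 2 ^ (clock m).2, 0, 0, 0, 0]) ∨ EvZero o x := by
  by_cases hE : EvZero o x
  · exact Or.inr hE
  · left
    intro m hm
    obtain ⟨k, rfl⟩ := Nat.exists_eq_add_of_le hm
    induction k with
    | zero => exact hv
    | succ k ih =>
      rcases idle_step o x (n + k) K (ih (by omega)) with h | h
      · exact h
      · exact absurd h hE

/-- the possible behaviours of a path -/
theorem behaviour : (∃ K n, ∀ m ≥ n, run word o x m = ![K / 2 ^ (clock m).2, 0, 0, 0, 0]) ∨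
    EvZero o x := by
  have hc0 : (clock 0).1 = 0 := rfl
  have hc1 : clock 1 = (1, 1) := by simp [clock]
  have hc2 : clock 2 = (0, 1) := by simp [clock]
  have hc3 : clock 3 = (2, 2) := by simp [clock]
  rcases step_one o 0 hc0 (run word o x 0) with h | h | h
  · have h1 : run word o x 1 = ![(2 * (run word o x 0 0 / 2 + run word o x 0 4 -
        2 * run word o x 0 3)) / 2 ^ (clock 1).2, 0, 0, 0, 0] := by
      rw [run_succ, h, hc1]
      ext i
      fin_cases i <;> simp
    rcases idle_all o x 1 _ h1 with h2 | h2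
    · exact Or.inl ⟨_, 1, h2⟩
    · exact Or.inr h2
  · right
    refine evZero_X o x 1 1 (by rw [hc1]) (run word o x 0 0 / 2 + run word o x 0 4 -
        2 * run word o x 0 3) ?_
    rw [run_succ, h, hc1]
    ext i
    fin_cases i <;> simp
  · have h1 : run word o x 1 = ![0, 0, 0, run word o x 0 1, run word o x 0 2] := by
      rw [run_succ, h]
    have h2 : run word o x 2 = ![0, 0, 0, run word o x 0 1, 2 * run word o x 0 2] := by
      rw [run_succ, step_zero o 1 (by rw [hc1]; simp), h1]
      ext i
      fin_cases i <;> simp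
    rcases step_one o 2 (by rw [hc2]) (run word o x 2) with h3 | h3 | h3
    · have h4 : run word o x 3 = ![(4 * (2 * run word o x 0 2 - 2 * run word o x 0 1)) /
          2 ^ (clock 3).2, 0, 0, 0, 0] := by
        rw [run_succ, h3, h2, hc3]
        ext i
        fin_cases i <;> simp
        ring
      rcases idle_all o x 3 _ h4 with h5 | h5
      · exact Or.inl ⟨_, 3, h5⟩
      · exact Or.inr h5
    · right
      refine evZero_X o x 2 3 (by rw [hc3]) (2 * run word o x 0 2 - 2 * run word o x 0 1) ?_
      rw [run_succ, h3, h2, hc3]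
      ext i
      fin_cases i <;> simp
    · right
      apply evZero_of o x (n := 3)
      rw [run_succ, h3, h2]
      ext i
      fin_cases i <;> simp

theorem run_tendsto (i : Fin 5) : Tendsto (fun n => run word o x n i) atTop (𝓝 0) := by
  rcases behaviour o x with ⟨K, n, h⟩ | ⟨n, h⟩
  · have h1 : Tendsto (fun n => K / 2 ^ (clock n).2) atTop (𝓝 0) := by
      have h2 : Tendsto (fun j : ℕ => K * (1 / 2 : ℝ) ^ j) atTop (𝓝 (K * 0)) :=
        (tendsto_pow_atTop_nhds_zero_of_lt_one (by norm_num) (by norm_num)).const_mul K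
      rw [mul_zero] at h2
      have h3 := h2.comp clock_tendsto
      refine h3.congr fun n => ?_
      simp [div_eq_mul_inv]
    have h4 : Tendsto (fun n => (![K / 2 ^ (clock n).2, 0, 0, 0, 0] : Fin 5 → ℝ) i) atTop (𝓝 0) := by
      fin_cases i
      · exact h1
      all_goals simp
    refine h4.congr' ?_
    filter_upwards [eventually_ge_atTop n] with m hm
    rw [h m hm]
  · refine tendsto_const_nhds.congr' ?_
    filter_upwards [eventually_ge_atTop n] with m hm
    rw [h m hm]
    rfl

end path

/-! ## The sets of matrices -/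

/-- the three matrices of `𝒜` -/
noncomputable def Amat (o : Fin 3) : Matrix (Fin 5) (Fin (5 + 5)) ℝ :=
  (Matrix.fromCols M0 (O1 o)).submatrix id finSumFinEquiv.symm

/-- the two matrices of `ℬ` -/
noncomputable def Bmat (b : Bool) : Matrix (Fin (5 + 5)) (Fin 5) ℝ :=
  (Matrix.fromRows (if b then 0 else 1) (if b then 1 else 0)).submatrix finSumFinEquiv.symm id

theorem Amat_mul_Bmat (o : Fin 3) (b : Bool) : Amat o * Bmat b = stepM b o := by
  rw [Amat, Bmat, Matrix.submatrix_mul_equiv, Matrix.fromCols_mul_fromRows]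
  cases b <;> simp [stepM]

theorem prod_mulVec (β : ℕ → Bool) (o : ℕ → Fin 3) (x : Fin 5 → ℝ) (n : ℕ) :
    prodSeq (fun n => Amat (o n)) (fun n => Bmat (β n)) n *ᵥ x = run β o x n := by
  induction n with
  | zero => simp [prodSeq, run]
  | succ n ih =>
    simp only [prodSeq]
    rw [← Matrix.mulVec_mulVec, ih, Amat_mul_Bmat, stepM_mulVec]
    rfl

/-- **Main result.** There are finite sets `𝒜`, `ℬ` of matrices for which the products are
path-independent stabilizable, but no sequence in `ℬ` gives a uniform exponential rate. Moreover,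
for every sequence `B` in `ℬ` and every `n`, some sequence in `𝒜` makes the norm of the `n`-th
product at least `1`. -/
theorem result : ∃ (N M : ℕ) (𝒜 : Finset (Matrix (Fin N) (Fin M) ℝ))
    (ℬ : Finset (Matrix (Fin M) (Fin N) ℝ)), 1 ≤ N ∧ 1 ≤ M ∧
      PathIndependentStabilizable 𝒜 ℬ ∧ ¬ HasUniformExponentialRate 𝒜 ℬ ∧
      ∀ B : ℕ → Matrix (Fin M) (Fin N) ℝ, (∀ n, B n ∈ ℬ) → ∀ n,
        ∃ A : ℕ → Matrix (Fin N) (Fin M) ℝ, (∀ n, A n ∈ 𝒜) ∧ 1 ≤ matNorm (prodSeq A B n) := by
  classical
  have hlow : ∀ B : ℕ → Matrix (Fin (5 + 5)) (Fin 5) ℝ, (∀ n, B n ∈ Finset.univ.image Bmat) →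
      ∀ n, ∃ A : ℕ → Matrix (Fin 5) (Fin (5 + 5)) ℝ, (∀ n, A n ∈ Finset.univ.image Amat) ∧
        1 ≤ matNorm (prodSeq A B n) := by
    intro B hB n
    have hch : ∀ n, ∃ b, Bmat b = B n := by
      intro n
      obtain ⟨b, -, hb⟩ := Finset.mem_image.mp (hB n)
      exact ⟨b, hb⟩
    choose β hβ using hch
    have hBβ : B = fun n => Bmat (β n) := by
      ext1 n
      exact (hβ n).symm
    obtain ⟨k, hk⟩ := exists_lead β n
    obtain ⟨o, ho⟩ := lower_bound n β k hk
    refine ⟨fun n => Amat (o n), fun n => Finset.mem_image_of_mem _ (Finset.mem_univ _), ?_⟩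
    rw [hBβ]
    set P := prodSeq (fun n => Amat (o n)) (fun n => Bmat (β n)) n with hP
    have h1 : (1 : ℝ) ≤ 2 ^ k := one_le_pow₀ (by norm_num)
    have hrow : ∀ i, ∑ j, |P i j| ≤ matNorm P := by
      intro i
      exact Finset.single_le_sum (f := fun i => ∑ j, |P i j|)
        (fun i _ => Finset.sum_nonneg fun j _ => abs_nonneg _) (Finset.mem_univ i)
    rcases ho with ⟨i, hi⟩ | ⟨i, hi⟩
    · rw [← prod_mulVec, ← hP] at hi
      have h2 : (P *ᵥ eZ) i = P i 0 := by
        simp [Matrix.mulVec, dotProduct, eZ, Fin.sum_univ_succ]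
      rw [h2] at hi
      calc (1 : ℝ) ≤ 2 ^ k := h1
        _ ≤ |P i 0| := hi
        _ ≤ ∑ j, |P i j| := Finset.single_le_sum (f := fun j => |P i j|)
            (fun j _ => abs_nonneg _) (Finset.mem_univ 0)
        _ ≤ _ := hrow i
    · rw [← prod_mulVec, ← hP] at hi
      have h2 : (P *ᵥ eX) i = P i 1 + P i 2 := by
        simp [Matrix.mulVec, dotProduct, eX, Fin.sum_univ_succ]
      rw [h2] at hi
      calc (1 : ℝ) ≤ 2 ^ k := h1
        _ ≤ |P i 1 + P i 2| := hi
        _ ≤ |P i 1| + |P i 2| := abs_add_le _ _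
        _ ≤ ∑ j, |P i j| := by
            rw [Fin.sum_univ_five]
            have := abs_nonneg (P i 0)
            have := abs_nonneg (P i 3)
            have := abs_nonneg (P i 4)
            linarith
        _ ≤ _ := hrow i
  refine ⟨5, 5 + 5, Finset.univ.image Amat, Finset.univ.image Bmat, by norm_num, by norm_num,
    ?_, ?_, hlow⟩
  · refine ⟨fun n => Bmat (word n), fun n => Finset.mem_image_of_mem _ (Finset.mem_univ _), ?_⟩
    intro A hA
    have hch : ∀ n, ∃ o, Amat o = A n := by
      intro n
      obtain ⟨b, -, hb⟩ := Finset.mem_image.mp (hA n)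
      exact ⟨b, hb⟩
    choose o ho using hch
    have hAo : A = fun n => Amat (o n) := by
      ext1 n
      exact (ho n).symm
    rw [hAo]
    have hentry : ∀ i j, Tendsto (fun n => |prodSeq (fun n => Amat (o n))
        (fun n => Bmat (word n)) n i j|) atTop (𝓝 0) := by
      intro i j
      have h1 := (run_tendsto o (Pi.single j 1) i).abs
      rw [abs_zero] at h1
      refine h1.congr fun n => ?_
      rw [← prod_mulVec]
      congr 1
      simp
    have hsum : Tendsto (fun n => ∑ i, ∑ j, |prodSeq (fun n => Amat (o n))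
        (fun n => Bmat (word n)) n i j|) atTop (𝓝 (∑ _i : Fin 5, ∑ _j : Fin 5, (0 : ℝ))) :=
      tendsto_finsetSum _ fun i _ => tendsto_finsetSum _ fun j _ => hentry i j
    simp only [Finset.sum_const_zero] at hsum
    exact hsum
  · rintro ⟨B, hB, C, hC, r, hr0, hr1, h⟩
    have hlim : Tendsto (fun n : ℕ => C * r ^ n) atTop (𝓝 (C * 0)) :=
      (tendsto_pow_atTop_nhds_zero_of_lt_one hr0.le hr1).const_mul C
    rw [mul_zero] at hlim
    obtain ⟨n, hn1, hn2⟩ := ((hlim.eventually (gt_mem_nhds one_pos)).and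
      (eventually_ge_atTop 1)).exists
    obtain ⟨A, hA, hge⟩ := hlow B hB n
    have := h A hA n hn2
    linarith

end Pool.Agent.Results.MP_3f52e1_an.NoUniformRate
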